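import Pool.Agent.J6H84.DG.Stm
import Pool.Agent.J6H68.TS.Lab

/-!
# Project DG (helper84), module STAB (helper22): stabilizers act freely on `n - 1` symbols
-/

set_option autoImplicit false

namespace Pool.Agent.J6H22.DG.Stab

open Finset Pool.Agent.H430R2.PermCubes Pool.Agent.J6H84.LM Pool.Agent.J6H84.TS
  Pool.Agent.J6H84.DG

theorem main : Pool.Agent.J6H84.DG.S_Stab := by
  classical
  intro m n k C hm hn hk hC hTwo P x hP
  have hmk : m ≤ k := by omega
  have hτ0 : ∀ (σ : P) (i : Fin k), ∃ τ : Equiv.Perm (Fin n), ∀ y, C i (σ.1 y) = τ (C i y) := by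
    intro σ i
    obtain ⟨τ, hτ⟩ := (hP σ.1 σ.2).1 i
    exact ⟨τ, fun y => by simpa using hτ y⟩
  choose τ' hτ' using hτ0
  obtain ⟨i0⟩ : Nonempty (Fin k) := ⟨⟨0, by omega⟩⟩
  have hs := Pool.Agent.J6H68.TS.Lab.surj hm hmk hC i0
  obtain ⟨τ, hττ⟩ : ∃ τ : P → Equiv.Perm (Fin n), ∀ σ, τ σ = τ' σ i0 := ⟨_, fun σ => rfl⟩
  have hτ : ∀ (σ : P) y, C i0 (σ.1 y) = τ σ (C i0 y) := fun σ y => by
    rw [hττ]
    exact hτ' σ i0 y
  have hfix : ∀ (σ : P) (i : Fin k), τ' σ i (C i x) = C i x := fun σ i => by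
    rw [← hτ', (hP σ.1 σ.2).2]
  have hone : τ 1 = 1 := by
    refine Equiv.ext fun s => ?_
    obtain ⟨y, rfl⟩ := hs s
    rw [← hτ 1 y]
    rfl
  have hmul : ∀ σ σ' : P, τ (σ * σ') = τ σ * τ σ' := by
    intro σ σ'
    refine Equiv.ext fun s => ?_
    obtain ⟨y, rfl⟩ := hs s
    rw [← hτ (σ * σ') y, Equiv.Perm.mul_apply, ← hτ σ' y, ← hτ σ]
    rfl
  have hfree : ∀ (σ : P) (s : Fin n), s ≠ C i0 x → τ σ s = s → σ = 1 := by
    intro σ s hs0 hσs
    obtain ⟨S, hiS, -, hS⟩ := Finset.exists_subsuperset_card_eq (s := {i0}) (t := Finset.univ)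
      (n := m) (Finset.subset_univ _) (by simpa using hm) (by simpa using hmk)
    obtain ⟨z, hz⟩ := hC.exists_point S hS (fun i => if i = i0 then s else C i x)
    have hi0 : i0 ∈ S := hiS (by simp)
    have hz0 : C i0 z = s := by
      rw [hz i0 hi0]
      simp
    have hσz : σ.1 z = z := by
      refine hC.eq_of_agree S hS.ge fun i hi => ?_
      rw [hτ' σ i z, hz i hi]
      by_cases h : i = i0
      · subst h
        rw [if_pos rfl, ← hττ]
        exact hσs
      · rw [if_neg h]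
        exact hfix σ i
    have hzx : z ≠ x := fun h => hs0 (by rw [← hz0, h])
    exact Subtype.ext (hTwo σ.1 (hP σ.1 σ.2).1 z x hσz (hP σ.1 σ.2).2 hzx)
  let _ : MulAction P {s : Fin n | s ≠ C i0 x} :=
    { smul := fun σ s => ⟨τ σ s.1, fun h => s.2 ((τ σ).injective
        (h.trans ((hττ σ).symm ▸ (hfix σ i0).symm)))⟩
      one_smul := fun s => Subtype.ext (by
        show τ 1 s.1 = s.1
        rw [hone]
        rfl)
      mul_smul := fun σ σ' s => Subtype.ext (by
        show τ (σ * σ') s.1 = τ σ (τ σ' s.1)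
        rw [hmul]
        rfl) }
  have hst : ∀ b : {s : Fin n | s ≠ C i0 x}, MulAction.stabilizer P b = ⊥ := by
    intro b
    rw [eq_bot_iff]
    intro σ hσ
    rw [Subgroup.mem_bot]
    exact hfree σ b.1 b.2 (congrArg Subtype.val (MulAction.mem_stabilizer_iff.1 hσ))
  have e := MulAction.selfEquivOrbitsQuotientProd hst
  have h1 : Nat.card {s : Fin n | s ≠ C i0 x} = n - 1 := by
    rw [Nat.card_eq_fintype_card, Set.card_ne_eq, Fintype.card_fin]
  rw [← h1, Nat.card_congr e, Nat.card_prod]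
  exact dvd_mul_left _ _

end Pool.Agent.J6H22.DG.Stab
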